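import Pool.Agent.Run7.h177.TA.Main

/-!
# Rational points and hyperbolicity of varieties with an immersive family of symmetric differentials

`X = {F = 0}` is a projective variety (or scheme) over a number field `k`, of any dimension, possibly
singular or reducible, and `σ : k → ℂ` is an embedding. We assume that there is a finite family of
regular symmetric differentials `s j` of positive degrees `m j` on `X_σ` (`SymForm`,
`Pool/Agent/Run7/h418/Defs.lean`) which is immersive (`Immersive`): for all points `x` and all nonzero
Zariski tangent vectors `v`, `w` of `X_σ` at `x`, the derivative of some `s j` at `v` in the direction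
`w` is not zero. For example, this holds if `X` is smooth and some symmetric power `Sᵐ Ω`, `m > 0`, is
generated by global sections, and for all closed subvarieties of such an `X`. For `m = 1` these are the
varieties which are immersed in their Albanese variety.

`Points F L` is `X(L)` (`Pool/Agent/Q103/AR/Pts.lean`). `HolMap`: holomorphic map from the complex plane
to projective space; `BoundedDer`: its derivative is bounded for the Fubini-Study metric; `Cone F`: the
cone over `{F = 0}`; `projDist`: a distance on projective space. `BrodyHyperbolic`: every holomorphic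
map from the complex plane is constant (for compact spaces this is Kobayashi hyperbolicity, by the
theorem of Brody).

Theorem. Let `Z = {Q = 0}` be a closed subset defined over `k` which contains all but finitely many
points of `X(L)`, for all number fields `L ⊇ k`. Then

1. all nonconstant entire curves of bounded derivative in `X_σ` lie in `Z_σ`;
2. for every nonconstant entire curve `f` in `X_σ` there is a nonconstant entire curve `h` of bounded
   derivative in `Z_σ` whose image is in the closure of the image of `f`;
3. if `X(L)` is finite for all number fields `L ⊇ k` then `X_σ` is hyperbolic.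

The proof: by a theorem of helper418 (`MP_2a5ae2_ag`, `BrodyCurvesAndTori`) an entire curve of bounded
derivative lies in an immersed complex torus. The functions on the torus which come from `X` have finite
degree over the field generated by `w = dim` coordinates (lemma of Siegel), so near a fixed point the
multiplication by `2` is given by polynomials, which can be specialised to algebraic numbers, and the
`2`-adic dynamics near the fixed point gives infinitely many points of `X`, outside of `Z`, over a
number field (`Pool/Agent/Run7/h177/TA/Iface.lean`).
-/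

set_option autoImplicit false

open scoped LinearAlgebra.Projectivization

namespace Pool.Agent.Results.MP_f82ddf_nt.ImmersiveDifferentials

open Pool.Agent.W602.GT Pool.Agent.N155 Run7.h418
open Pool.Agent.N154.GG (projDist)
open Pool.Agent.Q103.AR (Points)

/-- **Rational points and hyperbolicity of varieties with an immersive family of symmetric
differentials.** -/
theorem result {k : Type} [Field k] [NumberField k] (σ : k →+* ℂ) {n : ℕ} {ι κ τ : Type} [Finite τ]
    (F : ι → MvPolynomial (Fin (n + 1)) k) (hF : ∀ i, IsForm (F i)) {m : τ → ℕ} (hm : ∀ j, 0 < m j)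
    {s : τ → (Fin (n + 1) → ℂ) → (Fin (n + 1) → ℂ) → ℂ}
    (hs : ∀ j, SymForm (fun i => MvPolynomial.map σ (F i)) (m j) (s j))
    (him : Immersive (fun i => MvPolynomial.map σ (F i)) s)
    (Q : κ → MvPolynomial (Fin (n + 1)) k) (hQ : ∀ j, IsForm (Q j))
    (hfin : ∀ (L : Type) [Field L] [NumberField L] [Algebra k L],
      (Points F L \ Points Q L).Finite) :
    (∀ f : ℂ → ℙ ℂ (Fin (n + 1) → ℂ), HolMap f →
      (∀ z, (f z).rep ∈ Cone (fun i => MvPolynomial.map σ (F i))) → BoundedDer f →
        (∃ z w, f z ≠ f w) → ∀ j z, val (f z).rep (MvPolynomial.map σ (Q j)) = 0) ∧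
    (∀ f : ℂ → ℙ ℂ (Fin (n + 1) → ℂ), HolMap f →
      (∀ z, (f z).rep ∈ Cone (fun i => MvPolynomial.map σ (F i))) → (∃ z w, f z ≠ f w) →
        ∃ h : ℂ → ℙ ℂ (Fin (n + 1) → ℂ), HolMap h ∧ BoundedDer h ∧
          (∀ z, (h z).rep ∈ Cone (fun i => MvPolynomial.map σ (F i))) ∧ (∃ z w, h z ≠ h w) ∧
          (∀ j z, val (h z).rep (MvPolynomial.map σ (Q j)) = 0) ∧
          ∀ z, ∀ ε > 0, ∃ w, projDist (h z) (f w) < ε) ∧
    ((∀ (L : Type) [Field L] [NumberField L] [Algebra k L], (Points F L).Finite) →
      BrodyHyperbolic (fun i => MvPolynomial.map σ (F i))) := by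
  refine ⟨fun f hf hfF hb hne => Run7.h177.TA.bdd_zero σ F hF hm hs him Q hQ hfin hf hfF hb hne,
    fun f hf hfF hne => Run7.h177.TA.main_immersive σ F hF hm hs him Q hQ hfin hf hfF hne,
    fun hfin' f hf hfF => ?_⟩
  by_contra hcon
  push Not at hcon
  obtain ⟨h, -, -, -, -, h1, -⟩ := Run7.h177.TA.main_immersive σ F hF hm hs him (κ := Unit)
    (fun _ => 1) (fun _ => ⟨0, MvPolynomial.isHomogeneous_one _ _⟩)
    (fun L _ _ _ => (hfin' L).subset Set.sdiff_subset) hf hfF hcon
  have h2 := h1 () 0
  rw [map_one] at h2
  unfold Pool.Agent.W602.GT.val at h2
  rw [map_one] at h2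
  exact one_ne_zero h2

end Pool.Agent.Results.MP_f82ddf_nt.ImmersiveDifferentials
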