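import Pool.Agent.Run7.h177.LG.Abel

/-!
# Rational points and entire curves in varieties over abelian varieties

`X = {F = 0}` is a projective variety over a number field `k`, singular and reducible varieties are
allowed, and `σ : k → ℂ` an embedding. `α` is a holomorphic map from `X_σ` to the complex torus
`ℂᵐ / Λ`, which is an abelian variety (there is a Riemann form `H` for `Λ`). `Zeros G` is the closed
subset `S = {G = 0}`. The forms `η` are positive in the directions of the abelian variety outside of
`S` (`TwoForms`, `Pool/Agent/N154/TB/Defs.lean`): outside `S` the variety `X_σ` is a complex manifold of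
dimension `d`; for instance the `η` are given by sections of `Sym^ν (Λ² Ω) ⊗ O(-1)`, or by sections of
`Sym^ν (Λ² Ω)` which vanish over an ample divisor of the abelian variety, and for all linearly
independent tangent vectors `v`, `w` at points outside of `S`, where `v` is not tangent to the fibre
of `α`, one of the `η(v, w)` is not zero. This is the case for all smooth surfaces of general type with
a nonconstant map `α`, for a suitable curve `S`.

`CurveIn X f`: `f` is a holomorphic map from the complex plane to `X`; `InCurve f` (`Pool/Agent/Run7/h177/LG/Crv.lean`): its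
image is contained in an algebraic curve. It is assumed that the nonconstant entire curves in the
fibres of `α` and those in `S` lie in algebraic curves (this is the case if the fibres of `α` and `S`
have dimension at most one). Nothing else is assumed about entire curves, and nothing about the
subvarieties of `X_σ`.

Theorem. Let `Z = {Q = 0}` be a closed subset defined over `k` such that for all number fields `L ⊇ k`
all but finitely many points of `X(L)` are on `Z`. Then for every nonconstant entire curve `f` in `X_σ`
there is a nonconstant entire curve `h` in `Z_σ` whose image is in the closure of the image of `f`. In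
particular, if `X(L)` is finite for all number fields `L`, or if there are no nonconstant entire
curves in `Z_σ`, then `X_σ` is hyperbolic: every entire curve is constant.
-/

set_option autoImplicit false

open LinearAlgebra.Projectivization

namespace Pool.Agent.Results.MP_f82ddf_nt.OverAbelianVarieties

open Pool.Agent.W602.GT Pool.Agent.N154.TB Run7.h177.LG
open Pool.Agent.N154.TT (RiemannForm HolToTorus)
open Pool.Agent.N154.GG (projDist)
open Pool.Agent.Q103.AR (Points)

/-- **Rational points and entire curves in varieties over abelian varieties.** -/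
theorem result {k : Type} [Field k] [NumberField k] (σ : k →+* ℂ) {n : ℕ} {ι ι' κ : Type}
    (F : ι → MvPolynomial (Fin (n + 1)) k) (hF : ∀ e, IsForm (F e)) {d m : ℕ}
    (G : ι' → MvPolynomial (Fin (n + 1)) ℂ) (hG : ∀ j, IsForm (G j))
    (Λ : Submodule ℤ (Fin m → ℂ)) [DiscreteTopology Λ] [IsZLattice ℝ Λ]
    (H : (Fin m → ℂ) → (Fin m → ℂ) → ℂ) (hH : RiemannForm Λ H)
    (α : (Fin (n + 1) → ℂ) → (Fin m → ℂ) ⧸ Λ)
    (hα : HolToTorus (Cone (fun e => MvPolynomial.map σ (F e))) Λ α) {κ' : Type} (t : κ' → ℕ)
    (η : κ' → (Fin (n + 1) → ℂ) → (Fin (n + 1) → ℂ) → (Fin (n + 1) → ℂ) → ℂ)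
    (hη : TwoForms (Cone (fun e => MvPolynomial.map σ (F e))) (Zeros G) d α t η)
    (hfib : ∀ h, CurveIn (Cone (fun e => MvPolynomial.map σ (F e))) h →
      (∀ z w, α (h z).rep = α (h w).rep) → IsConst h ∨ InCurve h)
    (hS : ∀ h, CurveIn (Cone (fun e => MvPolynomial.map σ (F e))) h →
      (∀ z, (h z).rep ∈ Zeros G) → IsConst h ∨ InCurve h)
    (Q : κ → MvPolynomial (Fin (n + 1)) k) (hQ : ∀ j, IsForm (Q j))
    (hfin : ∀ (L : Type) [Field L] [NumberField L] [Algebra k L],
      (Points F L \ Points Q L).Finite) :
    (∀ f, CurveIn (Cone (fun e => MvPolynomial.map σ (F e))) f → IsConst f ∨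
      ∃ h, CurveIn (Cone (fun e => MvPolynomial.map σ (F e))) h ∧ ¬ IsConst h ∧
        (∀ j z, val (h z).rep (MvPolynomial.map σ (Q j)) = 0) ∧
        ∀ z, ∀ ε > 0, ∃ w, projDist (h z) (f w) < ε) ∧
    ((∀ (L : Type) [Field L] [NumberField L] [Algebra k L], (Points F L).Finite) →
      ∀ f, CurveIn (Cone (fun e => MvPolynomial.map σ (F e))) f → IsConst f) := by
  refine ⟨main_abel σ F hF G hG Λ H hH α hα t η hη hfib hS Q hQ hfin, fun hfin' f hf => ?_⟩
  rcases main_abel σ F hF G hG Λ H hH α hα t η hη hfib hS (κ := Unit) (fun _ => 1)
    (fun _ => ⟨0, MvPolynomial.isHomogeneous_one _ _⟩)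
    (fun L _ _ _ => (hfin' L).subset Set.sdiff_subset) f hf with h | ⟨h, -, -, h1, -⟩
  · exact h
  · exfalso
    have h2 := h1 () 0
    rw [map_one] at h2
    unfold Pool.Agent.W602.GT.val at h2
    rw [map_one] at h2
    exact one_ne_zero h2

end Pool.Agent.Results.MP_f82ddf_nt.OverAbelianVarieties
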