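import Pool.Agent.Run7.h177.LG.Sparse
import Pool.Agent.R869.SSix

/-!
# Rational points and hyperbolicity for almost all sparse systems of equations

`k` is a number field, `X = {F = 0}` and `Z = {Q = 0}` are projective varieties over `k`. The definitions
`FiniteOff`, `EntireIn`, `PicardIn` and `GeneralOff` are in `Pool/Agent/Run7/h177/LG/Defs.lean`:

* `FiniteOff F Q`: for all number fields `L ⊇ k` all but finitely many points of `X(L)` are on `Z`;
* `EntireIn`: all nonconstant holomorphic maps from the complex plane to `X_σ` have values in `Z_σ`;
* `PicardIn`: all holomorphic maps from the punctured unit disc to `X_σ` with values not all in `Z_σ`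
  extend to the disc;
* `GeneralOff`: all closed subvarieties of positive dimension of `X_σ` which are not contained in `Z_σ`
  are of general type.

`Brody F` (`Pool/Agent/Y190/PH/Tor.lean`): all entire curves in `{F = 0}` are constant.
`OrbitsConstant F` (`Pool/Agent/W603/CX/Groupless.lean`): all morphisms
`t ↦ (x_0 t ^ b_0 : … : x_n t ^ b_n)` from the multiplicative group to `{F = 0}` are constant.
`TuplesIn I d`, `AlmostAllIn I P` (`Pool/Agent/R869/SDefs.lean`): the tuples of exponent vectors of degree
`d`, the `i`-th one of a monomial in the variables from `I i`; the proportion of the tuples with the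
property `P` tends to `1` for `d → ∞`. `withPowers` (`WDensDefs.lean`): the set of the exponent vectors
`a i` and of those of the `x_j ^ d`.
-/

set_option autoImplicit false

namespace Pool.Agent.Results.MP_f82ddf_nt.SparseSystems

open MvPolynomial Pool.Agent.W602.GT Pool.Agent.R869.Wd Run7.h177.LG
open Pool.Agent.W603.CX (OrbitsConstant)
open Pool.Agent.Y190.PH (Brody)

/-- For all embeddings `σ`: (1) for all closed subsets `Z = {Q = 0}` over `k` which contain all but
finitely many `L`-rational points of `X`, for all number fields `L ⊇ k`, the nonconstant entire curves,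
the holomorphic maps from the punctured disc which do not extend and the subvarieties which are not of
general type of `X_σ` are in `Z_σ`; (2) if `X(L)` is finite for all `L` then all entire curves in `X_σ`
are constant; (3) all entire curves in `X_σ` are constant if and only if there are no nonconstant orbits
of diagonal one-parameter groups in `X` over the algebraic closure of `k`. -/
def LangFor {k : Type} [Field k] [NumberField k] {n : ℕ} {ι : Type}
    (F : ι → MvPolynomial (Fin (n + 1)) k) : Prop :=
  ∀ σ : k →+* ℂ,
    (∀ (κ : Type) (Q : κ → MvPolynomial (Fin (n + 1)) k), (∀ j, IsForm (Q j)) → FiniteOff F Q →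
      EntireIn (fun e => map σ (F e)) (fun j => map σ (Q j)) ∧
      PicardIn (fun e => map σ (F e)) (fun j => map σ (Q j)) ∧
      GeneralOff (fun e => map σ (F e)) (fun j => map σ (Q j))) ∧
    ((∀ (L : Type) [Field L] [NumberField L] [Algebra k L],
      (Pool.Agent.Q103.AR.Points F L).Finite) → Brody (fun e => map σ (F e))) ∧
    (Brody (fun e => map σ (F e)) ↔
      OrbitsConstant (fun e => map (algebraMap k (AlgebraicClosure k)) (F e)))

theorem brody_of_entireIn {n : ℕ} {ι : Type} {F : ι → MvPolynomial (Fin (n + 1)) ℂ}
    (h : EntireIn F (fun _ : Unit => (1 : MvPolynomial (Fin (n + 1)) ℂ))) : Brody F := by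
  intro f hf hf0 hfF
  rcases h f hf hf0 hfF with h1 | h1
  · exact h1
  · have h2 := h1 0 ()
    rw [map_one] at h2
    exact absurd h2 one_ne_zero

theorem lang_of {k : Type} [Field k] [NumberField k] {n : ℕ} {ι : Type}
    {F : ι → MvPolynomial (Fin (n + 1)) k} {s N : ℕ} (hF : ∀ e, IsForm (F e))
    (hC : ∀ σ : k →+* ℂ, Sys ∅ (fun e => map σ (F e)) s N) : LangFor F := by
  intro σ
  refine ⟨fun κ Q hQ hfin => sparse_off σ hF (hC σ) hQ hfin, fun hfin => ?_,
    sparse_orbits σ (hC σ)⟩
  have h1 := (sparse_off σ hF (hC σ) (κ := Unit) (Q := fun _ => 1)
    (fun _ => ⟨0, isHomogeneous_one _ _⟩)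
    (fun L _ _ _ => (hfin L).subset Set.sdiff_subset)).1
  simp only [map_one] at h1
  exact brody_of_entireIn h1

/-- **Rational points and hyperbolicity for almost all sparse systems of equations.** For all `n`, `s`,
all nonempty sets of variables `I 1, …, I s` and almost all tuples of monomials of degree `d` in `n + 1`
variables, the `i`-th one in the variables from `I i`, `LangFor F` holds for all systems of linear
combinations `F 1, …, F m` of these monomials and of the `x_j ^ d` with coefficients in a number field
`k`. -/
theorem result (n s : ℕ) (I : Fin s → Finset (Fin (n + 1))) (hI : ∀ i, (I i).Nonempty) :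
    AlmostAllIn I fun d a => ∀ (k : Type) [Field k] [NumberField k] (m : ℕ)
      (F : Fin m → MvPolynomial (Fin (n + 1)) k), (∀ e, (F e).support ⊆ withPowers d a) →
      LangFor F := by
  refine almost_typI hI fun d a hty => ?_
  obtain ⟨s', N, hg⟩ := hty.good
  intro k _ _ m F hFT
  refine lang_of (s := s') (N := N) (fun e => ?_) fun σ => hg.sys (fun e => ?_) ∅
  · exact hg.form (hFT e)
  · rw [support_map_of_injective _ σ.injective]
    exact hFT e

end Pool.Agent.Results.MP_f82ddf_nt.SparseSystems
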