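import Pool.Agent.Run7.h177.LG.Sym

/-!
# Finiteness of rational points and hyperbolicity for surfaces of general type

`X = {F = 0}` is a smooth projective surface over a number field `k`, `σ : k → ℂ` an embedding,
`K` the function field of the complex surface `X_σ` and `y` its generic point
(`SmoothSurface`, `Pool/Agent/N155/Defs.lean`), of general type. `Points F L` is `X(L)`, a subset of
`ℙⁿ(L)` (`Pool/Agent/Q103/AR/Pts.lean`). We assume that `X(L)` is finite for all number fields `L`
which contain `k`.

A symmetric differential `ω` (`SymD K`, `Pool/Agent/N155/L/SDefs.lean`) is a finite sum of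
`h da₁ ⋯ da_d` with rational functions `h`, `a_l`, and it is regular (`SymD.Regular`) if it is regular
at all prime divisors of all models of `K`. By the theorem of Brody, `X_σ` is Kobayashi hyperbolic if
and only if every entire curve in `X_σ` of bounded derivative (`BoundedDer`) is constant.

Theorem. All entire curves of bounded derivative in `X_σ` are tangent to all regular symmetric
differentials of positive degree. Therefore `X_σ` is Kobayashi hyperbolic, and all entire curves in `X_σ`
are constant, in each of the following cases (`Pool/Agent/Run7/h177/LG/Sym.lean`):

* `ManySym K`: for every derivation `D` of `K` with values in an extension of `K`, without nonconstant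
  rational first integrals (`D f = 0` for `f` in `K` only for constant `f`), there is a regular
  symmetric differential `ω` of positive degree with `ω(D) ≠ 0`;
* `SplitSym K`: there is a regular symmetric differential `h da₁ ⋯ da_d`, `d > 0`, `h ≠ 0`, with
  nonconstant `a_l`; for instance, for `d = 1`, the pull-back of a differential form of a curve of
  positive genus;
* `TwoOneForms K`: there are two regular differential forms of degree one without a common zero in the
  derivations of `K`;
* `OverElliptic K`: there is a nonconstant rational map to an elliptic curve.

So all surfaces of general type with positive irregularity are included: the image of the Albanese map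
of such a surface is a curve of genus at least one, or a surface.
-/

set_option autoImplicit false

open scoped LinearAlgebra.Projectivization

namespace Pool.Agent.Results.MP_f82ddf_nt.SymmetricDifferentialSurfaces

open Pool.Agent.W602.GT Pool.Agent.N155 Run7.h177.LG
open Pool.Agent.Q103.SF (KobayashiHyp BrodyHyp)
open Pool.Agent.Q103.AR (Points)

/-- **Finiteness of rational points and hyperbolicity for surfaces of general type.** -/
theorem result {k : Type} [Field k] [NumberField k] (σ : k →+* ℂ) {n : ℕ} {ι : Type}
    (F : ι → MvPolynomial (Fin (n + 1)) k) {K : Type} [Field K] [Algebra ℂ K]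
    {y : Fin (n + 1) → K} (hX : SmoothSurface (fun e => MvPolynomial.map σ (F e)) y)
    (hgt : GeneralType ℂ K 2)
    (hfin : ∀ (L : Type) [Field L] [NumberField L] [Algebra k L], (Points F L).Finite) :
    (∀ f : ℂ → ℙ ℂ (Fin (n + 1) → ℂ), HolMap f →
      (∀ z, (f z).rep ∈ Cone (fun e => MvPolynomial.map σ (F e))) → BoundedDer f →
        ∀ ω : SymD K, 0 < ω.d → ω.Regular 2 → ω.Tangent y f) ∧
    (ManySym K ∨ SplitSym K ∨ TwoOneForms K ∨ OverElliptic K → KobayashiHyp y ∧ BrodyHyp y) :=
  (main_sym σ F hX hgt hfin).2

end Pool.Agent.Results.MP_f82ddf_nt.SymmetricDifferentialSurfaces
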